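import Pool.Agent.N576.MX2.D

/-! Project MX2 (helper576), part SINGLE (helper919): exactness for one position. -/

set_option autoImplicit false

namespace Pool.Agent.N919.MX2S

open Pool.Agent.N576.MX2

/-- integral combinations of `1, w, w'` with their conjugates -/
def Rep (w w' x xb : ℝ) : Prop := ∃ a b c : ℤ, x = a + b * w + c * w' ∧ xb = a - b * w - c * w'

theorem rep_mul {w w' x xb y yb : ℝ} {D D' n : ℤ} (hw : w ^ 2 = D) (hw' : w' ^ 2 = D')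
    (hn : w * w' = n) (hx : Rep w w' x xb) (hy : Rep w w' y yb) : Rep w w' (x * y) (xb * yb) := by
  obtain ⟨a, b, c, h1, h2⟩ := hx
  obtain ⟨a2, b2, c2, h3, h4⟩ := hy
  refine ⟨a * a2 + b * b2 * D + c * c2 * D' + (b * c2 + c * b2) * n, a * b2 + b * a2,
    a * c2 + c * a2, ?_, ?_⟩
  · rw [h1, h3]
    push_cast
    linear_combination (b * b2 : ℝ) * hw + (c * c2 : ℝ) * hw' + (b * c2 + c * b2 : ℝ) * hn
  · rw [h2, h4]
    push_cast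
    linear_combination (b * b2 : ℝ) * hw + (c * c2 : ℝ) * hw' + (b * c2 + c * b2 : ℝ) * hn

theorem rep_sub {w w' x xb y yb : ℝ} (hx : Rep w w' x xb) (hy : Rep w w' y yb) :
    Rep w w' (x - y) (xb - yb) := by
  obtain ⟨a, b, c, h1, h2⟩ := hx
  obtain ⟨a2, b2, c2, h3, h4⟩ := hy
  refine ⟨a - a2, b - b2, c - c2, ?_, ?_⟩
  · rw [h1, h3]; push_cast; ring
  · rw [h2, h4]; push_cast; ring

theorem rep_four {w w' x xb : ℝ} (hx : Rep w w' x xb) : Rep w w' (4 * x) (4 * xb) := by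
  obtain ⟨a, b, c, h1, h2⟩ := hx
  refine ⟨4 * a, 4 * b, 4 * c, ?_, ?_⟩
  · rw [h1]; push_cast; ring
  · rw [h2]; push_cast; ring

/-- `9 u² - 4` is not a square -/
theorem nonsq (u a m : ℤ) (hu : 1 ≤ u) (h : a ^ 2 * (9 * u ^ 2 - 4) = m ^ 2) : a = 0 := by
  by_contra ha
  have h1 : a ^ 2 ∣ m ^ 2 := ⟨_, h.symm⟩
  have h2 : a ∣ m := (Int.pow_dvd_pow_iff (by norm_num)).1 h1
  obtain ⟨q, rfl⟩ := h2
  have h3 : 9 * u ^ 2 - 4 = q ^ 2 := by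
    have h4 : a ^ 2 * (9 * u ^ 2 - 4) = a ^ 2 * q ^ 2 := by rw [h]; ring
    exact mul_left_cancel₀ (pow_ne_zero 2 ha) h4
  have h5 : |q| < 3 * u := by
    rw [← abs_of_pos (by linarith : (0 : ℤ) < 3 * u)]
    apply sq_lt_sq.1
    nlinarith
  have h6 : |q| ≤ 3 * u - 1 := by omega
  have h7 : q ^ 2 ≤ (3 * u - 1) ^ 2 := by
    rw [← sq_abs q]
    exact pow_le_pow_left₀ (abs_nonneg q) h6 2
  nlinarith

theorem rep_zero {w w' x xb : ℝ} {u D' n : ℤ} (hu : 1 ≤ u) (hw : w ^ 2 = ((9 * u ^ 2 - 4 : ℤ) : ℝ))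
    (hw' : w' ^ 2 = D') (hn : w * w' = n) (hx : Rep w w' x xb) (h : |x * xb| < 1) :
    x = 0 ∧ xb = 0 := by
  obtain ⟨a, b, c, h1, h2⟩ := hx
  have h3 : x * xb = ((a ^ 2 - b ^ 2 * (9 * u ^ 2 - 4) - c ^ 2 * D' - 2 * b * c * n : ℤ) : ℝ) := by
    rw [h1, h2]
    push_cast at hw ⊢
    linear_combination (-(b : ℝ) ^ 2) * hw - (c : ℝ) ^ 2 * hw' - 2 * (b : ℝ) * c * hn
  rw [h3] at h
  have h4 : a ^ 2 - b ^ 2 * (9 * u ^ 2 - 4) - c ^ 2 * D' - 2 * b * c * n = 0 := by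
    rw [← Int.abs_lt_one_iff]
    exact_mod_cast h
  have h5 : x * xb = 0 := by rw [h3, h4]; simp
  have h6 : ((a : ℝ)) ^ 2 = (b * w + c * w') ^ 2 := by
    have : x * xb = (a : ℝ) ^ 2 - (b * w + c * w') ^ 2 := by rw [h1, h2]; ring
    linarith
  have h7 : a ^ 2 * (9 * u ^ 2 - 4) = (b * (9 * u ^ 2 - 4) + c * n) ^ 2 := by
    have h8 : (a : ℝ) ^ 2 * ((9 * u ^ 2 - 4 : ℤ) : ℝ) =
        ((b * (9 * u ^ 2 - 4) + c * n : ℤ) : ℝ) ^ 2 := by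
      have h9 : ((b * (9 * u ^ 2 - 4) + c * n : ℤ) : ℝ) = w * (b * w + c * w') := by
        push_cast at hw ⊢
        linear_combination (-(b : ℝ)) * hw - (c : ℝ) * hn
      rw [h9, ← hw, h6]
      ring
    exact_mod_cast h8
  have h8 : a = 0 := nonsq u a _ hu h7
  have h9 : (b : ℝ) * w + c * w' = 0 := by
    rw [h8] at h6
    have : (b * w + c * w') ^ 2 = 0 := by rw [← h6]; simp
    exact pow_eq_zero_iff (by norm_num) |>.1 this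
  constructor
  · rw [h1, h8]; push_cast; linarith
  · rw [h2, h8]; push_cast; linarith

/-- the basic facts about the unit -/
theorem base (u : ℤ) (hu : 1 ≤ u) : ∃ w lb : ℝ, w = Real.sqrt (9 * (u : ℝ) ^ 2 - 4) ∧ 0 ≤ w ∧
    w ^ 2 = ((9 * u ^ 2 - 4 : ℤ) : ℝ) ∧ la u = (3 * u + w) / 2 ∧ lb = (3 * u - w) / 2 ∧
    la u * lb = 1 ∧ (la u)⁻¹ = lb ∧ 0 < lb ∧ lb ≤ 1 ∧ (u : ℝ) ≤ la u := by
  have hu' : (1 : ℝ) ≤ u := by exact_mod_cast hu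
  have hD : 0 ≤ 9 * (u : ℝ) ^ 2 - 4 := by nlinarith
  have hw := Real.sq_sqrt hD
  have hw0 := Real.sqrt_nonneg (9 * (u : ℝ) ^ 2 - 4)
  have hl : la u = (3 * u + Real.sqrt (9 * (u : ℝ) ^ 2 - 4)) / 2 := rfl
  have hlu : (u : ℝ) ≤ la u := by rw [hl]; linarith
  have hl0 : 0 < la u := by linarith
  have h1 : la u * ((3 * u - Real.sqrt (9 * (u : ℝ) ^ 2 - 4)) / 2) = 1 := by
    rw [hl]
    linear_combination (-(1 : ℝ) / 4) * hw
  have h2 : (la u)⁻¹ = (3 * u - Real.sqrt (9 * (u : ℝ) ^ 2 - 4)) / 2 := by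
    rw [inv_eq_iff_eq_inv]
    exact eq_inv_of_mul_eq_one_left h1
  refine ⟨_, _, rfl, hw0, ?_, hl, rfl, h1, h2, ?_, ?_, hlu⟩
  · rw [hw]; push_cast; ring
  · rw [← h2]; positivity
  · rw [← h2]; exact inv_le_one_of_one_le₀ (by linarith)

/-- powers of the unit -/
theorem pow_rep {u : ℤ} {w lb : ℝ} (hw : w ^ 2 = ((9 * u ^ 2 - 4 : ℤ) : ℝ))
    (hl : la u = (3 * u + w) / 2) (hlb : lb = (3 * u - w) / 2) (m : ℕ) :
    ∃ T U : ℤ, 2 * la u ^ m = T + U * w ∧ 2 * lb ^ m = T - U * w := by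
  have key : ∀ m : ℕ, (∃ T U : ℤ, 2 * la u ^ m = T + U * w ∧ 2 * lb ^ m = T - U * w) ∧
      (∃ T U : ℤ, 2 * la u ^ (m + 1) = T + U * w ∧ 2 * lb ^ (m + 1) = T - U * w) := by
    intro m
    induction m with
    | zero =>
      refine ⟨⟨2, 0, by simp, by simp⟩, ⟨3 * u, 1, ?_, ?_⟩⟩
      · rw [hl]; push_cast; ring
      · rw [hlb]; push_cast; ring
    | succ m ih =>
      refine ⟨ih.2, ?_⟩
      obtain ⟨⟨T, U, h1, h2⟩, ⟨T2, U2, h3, h4⟩⟩ := ih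
      have e1 : la u ^ 2 = 3 * u * la u - 1 := by
        rw [hl]; push_cast at hw; linear_combination (1 / 4 : ℝ) * hw
      have e2 : lb ^ 2 = 3 * u * lb - 1 := by
        rw [hlb]; push_cast at hw; linear_combination (1 / 4 : ℝ) * hw
      refine ⟨3 * u * T2 - T, 3 * u * U2 - U, ?_, ?_⟩
      · push_cast
        have : la u ^ (m + 1 + 1) = 3 * u * la u ^ (m + 1) - la u ^ m := by
          calc la u ^ (m + 1 + 1) = la u ^ m * la u ^ 2 := by ring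
            _ = _ := by rw [e1]; ring
        rw [this]
        linear_combination 3 * (u : ℝ) * h3 - h1
      · push_cast
        have : lb ^ (m + 1 + 1) = 3 * u * lb ^ (m + 1) - lb ^ m := by
          calc lb ^ (m + 1 + 1) = lb ^ m * lb ^ 2 := by ring
            _ = _ := by rw [e2]; ring
        rw [this]
        linear_combination 3 * (u : ℝ) * h4 - h2
  exact (key m).1

theorem bW {Z : ℝ} (hZ : 10 ≤ Z) (i j : ℤ) (lb l : ℝ) (h1 : (1 : ℝ) ≤ i) (h2 : (1 : ℝ) ≤ j)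
    (h3 : (i : ℝ) ≤ Z) (h4 : (j : ℝ) ≤ Z) (h5 : 0 < lb) (h6 : lb ≤ 1) (h7 : 0 < l) (h8 : l ≤ Z) :
    |i * lb + j * l| ≤ 2 * Z ^ 2 := by
  have hZ0 : 0 < Z := by linarith
  have e1 : (i : ℝ) * lb ≤ Z * 1 := mul_le_mul h3 h6 h5.le hZ0.le
  have e2 : (j : ℝ) * l ≤ Z * Z := mul_le_mul h4 h8 h7.le hZ0.le
  have e3 : 0 ≤ (i : ℝ) * lb := mul_nonneg (by linarith) h5.le
  have e4 : 0 ≤ (j : ℝ) * l := mul_nonneg (by linarith) h7.le
  have e5 : 10 * Z ≤ Z * Z := mul_le_mul_of_nonneg_right hZ hZ0.le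
  rw [abs_of_nonneg (by linarith)]
  have e6 : Z ^ 2 = Z * Z := by ring
  rw [e6]
  linarith

theorem bX {Z : ℝ} (hZ : 10 ≤ Z) (A B : ℤ) (u l : ℝ) (h1 : (1 : ℝ) ≤ A) (h2 : (1 : ℝ) ≤ B)
    (h3 : (A : ℝ) ≤ u) (h4 : (B : ℝ) ≤ u) (h5 : u ≤ l) (h6 : l ≤ Z) :
    |3 * (B : ℝ) - 3 * A * l| ≤ 3 * Z ^ 2 := by
  have hZ0 : 0 < Z := by linarith
  have e1 : (A : ℝ) * l ≤ Z * Z := mul_le_mul (by linarith) h6 (by linarith) hZ0.le
  have e2 : 0 ≤ (A : ℝ) * l := mul_nonneg (by linarith) (by linarith)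
  have e5 : 10 * Z ≤ Z * Z := mul_le_mul_of_nonneg_right hZ hZ0.le
  have e6 : Z ^ 2 = Z * Z := by ring
  have e7 : 3 * (A : ℝ) * l = 3 * (A * l) := by ring
  rw [abs_le, e6, e7]
  constructor
  · linarith
  · linarith

/-- the arithmetic of the last bound -/
theorem smallb {Z V Vb : ℝ} (hZ : 10 ≤ Z) (hV2 : |V| < Z⁻¹ ^ 12) (hbV : |Vb| ≤ 36 * Z ^ 7) :
    |32 * V * (32 * Vb)| < 1 := by
  have hZ0 : 0 < Z := by linarith
  have e1 : 32 * V * (32 * Vb) = 1024 * (V * Vb) := by ring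
  rw [e1, abs_mul, abs_mul, abs_of_pos (by norm_num : (0 : ℝ) < 1024)]
  have e2 : |V| * |Vb| ≤ Z⁻¹ ^ 12 * (36 * Z ^ 7) :=
    mul_le_mul hV2.le hbV (abs_nonneg _) (by positivity)
  have e3 : Z⁻¹ ^ 12 * (36 * Z ^ 7) = 36 * Z⁻¹ ^ 5 := by
    have : Z⁻¹ ^ 7 * Z ^ 7 = 1 := by rw [← mul_pow, inv_mul_cancel₀ hZ0.ne', one_pow]
    calc Z⁻¹ ^ 12 * (36 * Z ^ 7) = 36 * Z⁻¹ ^ 5 * (Z⁻¹ ^ 7 * Z ^ 7) := by ring
      _ = _ := by rw [this, mul_one]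
  have e4 : Z⁻¹ ^ 5 ≤ (1 / 10) ^ 5 := by
    refine pow_le_pow_left₀ (by positivity) ?_ 5
    rw [inv_eq_one_div]
    exact one_div_le_one_div_of_le (by norm_num) hZ
  have e5 : ((1 : ℝ) / 10) ^ 5 = 1 / 100000 := by norm_num
  rw [e5] at e4
  linarith

theorem bigb {Z Wb Wb' Xb Xb' r : ℝ} (hZ : 10 ≤ Z) (hbW : |Wb| ≤ 2 * Z ^ 2) (hbW' : |Wb'| ≤ 2 * Z ^ 2)
    (hbX : |Xb| ≤ 3 * Z ^ 2) (hbX' : |Xb'| ≤ 3 * Z ^ 2) (hr0 : 0 < r) (hr : r ≤ Z) :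
    |Wb * Xb' ^ 2 - Wb' * Xb ^ 2 * r| ≤ 36 * Z ^ 7 := by
  have hZ0 : 0 < Z := by linarith
  have e1 : |Wb * Xb' ^ 2| ≤ 2 * Z ^ 2 * (3 * Z ^ 2) ^ 2 := by
    rw [abs_mul, abs_pow]
    exact mul_le_mul hbW (pow_le_pow_left₀ (abs_nonneg _) hbX' 2) (by positivity) (by positivity)
  have e2 : |Wb' * Xb ^ 2 * r| ≤ 2 * Z ^ 2 * (3 * Z ^ 2) ^ 2 * Z := by
    rw [abs_mul, abs_mul, abs_pow, abs_of_pos hr0]
    exact mul_le_mul (mul_le_mul hbW' (pow_le_pow_left₀ (abs_nonneg _) hbX 2) (by positivity)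
      (by positivity)) hr hr0.le (by positivity)
  have e3 : |Wb * Xb' ^ 2 - Wb' * Xb ^ 2 * r| ≤ |Wb * Xb' ^ 2| + |Wb' * Xb ^ 2 * r| := abs_sub _ _
  have e4 : Z ^ 6 ≤ Z ^ 7 := pow_le_pow_right₀ (by linarith) (by norm_num)
  have e5 : (2 : ℝ) * Z ^ 2 * (3 * Z ^ 2) ^ 2 = 18 * Z ^ 6 := by ring
  have e6 : (2 : ℝ) * Z ^ 2 * (3 * Z ^ 2) ^ 2 * Z = 18 * Z ^ 7 := by ring
  linarith

theorem t_SINGLE : SINGLE := by
  intro u A B u' A' B' i j i' j' k k' n Z hR hR' hn hi hj hi' hj' hZ hiZ hjZ hiZ' hjZ' hlZ hlZ' hp1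
    hp2 hV
  obtain ⟨hA1, hAu, hB1, hBu, hM⟩ := hR
  obtain ⟨hA1', hAu', hB1', hBu', hM'⟩ := hR'
  have hu : 1 ≤ u := hA1.trans hAu
  have hu' : 1 ≤ u' := hA1'.trans hAu'
  obtain ⟨w, lb, hwd, hw0, hw, hl, hlb, hll, hinv, hlb0, hlb1, hul⟩ := base u hu
  obtain ⟨w', lb', hwd', hw0', hw', hl', hlb', hll', hinv', hlb0', hlb1', hul'⟩ := base u' hu'
  -- the product of the roots
  have hww : w * w' = ((n : ℤ) : ℝ) := by
    have h1 : (w * w') ^ 2 = (((n : ℤ) : ℝ)) ^ 2 := by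
      rw [mul_pow, hw, hw']
      exact_mod_cast hn.symm
    have h2 : (0 : ℝ) ≤ ((n : ℤ) : ℝ) := by exact_mod_cast Nat.zero_le n
    exact (sq_eq_sq₀ (mul_nonneg hw0 hw0') h2).1 h1
  have r1 : (1 : ℝ) ≤ u := by exact_mod_cast hu
  have r1' : (1 : ℝ) ≤ u' := by exact_mod_cast hu'
  have hl0 : 0 < la u := by linarith
  have hl0' : 0 < la u' := by linarith
  obtain ⟨p, hp⟩ : ∃ p : ℝ, p = la u ^ (2 * k + 1) := ⟨_, rfl⟩
  obtain ⟨p', hp'⟩ : ∃ p' : ℝ, p' = la u' ^ (2 * k' + 1) := ⟨_, rfl⟩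
  obtain ⟨q, hq⟩ : ∃ q : ℝ, q = lb ^ (2 * k + 1) := ⟨_, rfl⟩
  obtain ⟨q', hq'⟩ : ∃ q' : ℝ, q' = lb' ^ (2 * k' + 1) := ⟨_, rfl⟩
  have hpq : p * q = 1 := by rw [hp, hq, ← mul_pow, hll, one_pow]
  have hpq' : p' * q' = 1 := by rw [hp', hq', ← mul_pow, hll', one_pow]
  have hp0 : 0 < p := by rw [hp]; positivity
  have hp0' : 0 < p' := by rw [hp']; positivity
  have hq0 : 0 < q := by rw [hq]; positivity
  have hq0' : 0 < q' := by rw [hq']; positivity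
  obtain ⟨T, U, hT1, hT2⟩ := pow_rep hw hl hlb (2 * k + 1)
  obtain ⟨T', U', hT1', hT2'⟩ := pow_rep hw' hl' hlb' (2 * k' + 1)
  rw [← hp] at hT1
  rw [← hq] at hT2
  rw [← hp'] at hT1'
  rw [← hq'] at hT2'
  rw [← hp, ← hp'] at hp1 hp2 hV ⊢
  -- the quantities and their conjugates
  obtain ⟨W, hWd⟩ : ∃ W : ℝ, W = WW u i j := ⟨_, rfl⟩
  obtain ⟨W', hWd'⟩ : ∃ W' : ℝ, W' = WW u' i' j' := ⟨_, rfl⟩
  obtain ⟨X, hXd⟩ : ∃ X : ℝ, X = Xi u A B := ⟨_, rfl⟩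
  obtain ⟨X', hXd'⟩ : ∃ X' : ℝ, X' = Xi u' A' B' := ⟨_, rfl⟩
  rw [← hWd, ← hWd', ← hXd, ← hXd'] at hV ⊢
  have hW1 : W = i * la u + j * lb := by rw [hWd]; unfold WW; rw [hinv]
  have hW1' : W' = i' * la u' + j' * lb' := by rw [hWd']; unfold WW; rw [hinv']
  have hX1 : X = 3 * B - 3 * A * lb := by rw [hXd]; unfold Xi; rw [hinv]
  have hX1' : X' = 3 * B' - 3 * A' * lb' := by rw [hXd']; unfold Xi; rw [hinv']
  obtain ⟨Wb, hWb⟩ : ∃ Wb : ℝ, Wb = i * lb + j * la u := ⟨_, rfl⟩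
  obtain ⟨Wb', hWb'⟩ : ∃ Wb' : ℝ, Wb' = i' * lb' + j' * la u' := ⟨_, rfl⟩
  obtain ⟨Xb, hXb⟩ : ∃ Xb : ℝ, Xb = 3 * B - 3 * A * la u := ⟨_, rfl⟩
  obtain ⟨Xb', hXb'⟩ : ∃ Xb' : ℝ, Xb' = 3 * B' - 3 * A' * la u' := ⟨_, rfl⟩
  have RW : Rep w w' (2 * W) (2 * Wb) := by
    refine ⟨3 * u * (i + j), i - j, 0, ?_, ?_⟩
    · rw [hW1, hl, hlb]; push_cast; ring
    · rw [hWb, hl, hlb]; push_cast; ring
  have RW' : Rep w w' (2 * W') (2 * Wb') := by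
    refine ⟨3 * u' * (i' + j'), 0, i' - j', ?_, ?_⟩
    · rw [hW1', hl', hlb']; push_cast; ring
    · rw [hWb', hl', hlb']; push_cast; ring
  have RX : Rep w w' (2 * X) (2 * Xb) := by
    refine ⟨6 * B - 9 * u * A, 3 * A, 0, ?_, ?_⟩
    · rw [hX1, hlb]; push_cast; ring
    · rw [hXb, hl]; push_cast; ring
  have RX' : Rep w w' (2 * X') (2 * Xb') := by
    refine ⟨6 * B' - 9 * u' * A', 0, 3 * A', ?_, ?_⟩
    · rw [hX1', hlb']; push_cast; ring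
    · rw [hXb', hl']; push_cast; ring
  have RP : Rep w w' (2 * p) (2 * q) := ⟨T, U, 0, by rw [hT1]; push_cast; ring, by rw [hT2]; push_cast; ring⟩
  have RQ' : Rep w w' (2 * q') (2 * p') := ⟨T', 0, -U', by rw [hT2']; push_cast; ring, by rw [hT1']; push_cast; ring⟩
  have M : ∀ {x xb y yb : ℝ}, Rep w w' x xb → Rep w w' y yb → Rep w w' (x * y) (xb * yb) :=
    fun hx hy => rep_mul hw hw' hww hx hy
  have RV := rep_sub (rep_four (M RW (M RX' RX'))) (M (M RW' (M RX RX)) (M RP RQ'))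
  -- bounds
  have hZ0 : 0 < Z := by linarith
  have ri : (1 : ℝ) ≤ i := by exact_mod_cast hi
  have rj : (1 : ℝ) ≤ j := by exact_mod_cast hj
  have ri' : (1 : ℝ) ≤ i' := by exact_mod_cast hi'
  have rj' : (1 : ℝ) ≤ j' := by exact_mod_cast hj'
  have hbW : |Wb| ≤ 2 * Z ^ 2 := by rw [hWb]; exact bW hZ i j lb (la u) ri rj hiZ hjZ hlb0 hlb1 hl0 hlZ
  have hbW' : |Wb'| ≤ 2 * Z ^ 2 := by
    rw [hWb']; exact bW hZ i' j' lb' (la u') ri' rj' hiZ' hjZ' hlb0' hlb1' hl0' hlZ'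
  have hbX : |Xb| ≤ 3 * Z ^ 2 := by
    rw [hXb]
    exact bX hZ A B u (la u) (by exact_mod_cast hA1) (by exact_mod_cast hB1) (by exact_mod_cast hAu)
      (by exact_mod_cast hBu) hul hlZ
  have hbX' : |Xb'| ≤ 3 * Z ^ 2 := by
    rw [hXb']
    exact bX hZ A' B' u' (la u') (by exact_mod_cast hA1') (by exact_mod_cast hB1') (by exact_mod_cast hAu')
      (by exact_mod_cast hBu') hul' hlZ'
  have hqp : q * p' ≤ Z := by
    have : q * p' ≤ q * (Z * p) := mul_le_mul_of_nonneg_left hp2 hq0.le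
    calc q * p' ≤ q * (Z * p) := this
      _ = Z * (p * q) := by ring
      _ = Z := by rw [hpq, mul_one]
  have hbV : |Wb * Xb' ^ 2 - Wb' * Xb ^ 2 * (q * p')| ≤ 36 * Z ^ 7 :=
    bigb hZ hbW hbW' hbX hbX' (mul_pos hq0 hp0') hqp
  have hV2 : |W * X' ^ 2 - W' * X ^ 2 * (p * q')| < Z⁻¹ ^ 12 := by
    have e1 : W * X' ^ 2 - W' * X ^ 2 * (p * q') = (W * X' ^ 2 * p' - W' * X ^ 2 * p) * q' := by
      linear_combination (-(W * X' ^ 2)) * hpq'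
    rw [e1, abs_mul, abs_of_pos hq0']
    calc |W * X' ^ 2 * p' - W' * X ^ 2 * p| * q' < Z⁻¹ ^ 12 * p' * q' :=
          mul_lt_mul_of_pos_right hV hq0'
      _ = Z⁻¹ ^ 12 := by rw [mul_assoc, hpq', mul_one]
  obtain ⟨V, hVd⟩ : ∃ V : ℝ, V = W * X' ^ 2 - W' * X ^ 2 * (p * q') := ⟨_, rfl⟩
  obtain ⟨Vb, hVbd⟩ : ∃ Vb : ℝ, Vb = Wb * Xb' ^ 2 - Wb' * Xb ^ 2 * (q * p') := ⟨_, rfl⟩
  rw [← hVd] at hV2
  rw [← hVbd] at hbV
  have RV2 : Rep w w' (32 * V) (32 * Vb) := by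
    have e1 : 32 * V = 4 * (2 * W * (2 * X' * (2 * X'))) - 2 * W' * (2 * X * (2 * X)) * (2 * p * (2 * q')) := by
      rw [hVd]; ring
    have e2 : 32 * Vb = 4 * (2 * Wb * (2 * Xb' * (2 * Xb'))) -
        2 * Wb' * (2 * Xb * (2 * Xb)) * (2 * q * (2 * p')) := by
      rw [hVbd]; ring
    rw [e1, e2]
    exact RV
  have hsmall : |32 * V * (32 * Vb)| < 1 := smallb hZ hV2 hbV
  obtain ⟨z1, z2⟩ := rep_zero hu hw hw' hww RV2 hsmall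
  have hV0 : V = 0 := by linarith
  have hVb0 : Vb = 0 := by linarith
  rw [hVd] at hV0
  rw [hVbd] at hVb0
  constructor
  · linear_combination p' * hV0 + W' * X ^ 2 * p * hpq'
  · -- multiply the two equations
    have n1 : W * Wb = (NN u i j : ℤ) := by
      rw [hW1, hWb]
      unfold NN
      push_cast at hw ⊢
      have s1 : la u ^ 2 + lb ^ 2 = 9 * u ^ 2 - 2 := by
        rw [hl, hlb]
        linear_combination (1 / 2 : ℝ) * hw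
      linear_combination ((i : ℝ) * j) * s1 + ((i : ℝ) ^ 2 + j ^ 2) * hll
    have n1' : W' * Wb' = (NN u' i' j' : ℤ) := by
      rw [hW1', hWb']
      unfold NN
      push_cast at hw' ⊢
      have s1 : la u' ^ 2 + lb' ^ 2 = 9 * u' ^ 2 - 2 := by
        rw [hl', hlb']
        linear_combination (1 / 2 : ℝ) * hw'
      linear_combination ((i' : ℝ) * j') * s1 + ((i' : ℝ) ^ 2 + j' ^ 2) * hll'
    have n2 : X * Xb = -9 * (u : ℝ) ^ 2 := by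
      rw [hX1, hXb]
      have s1 : la u + lb = 3 * u := by rw [hl, hlb]; ring
      have s2 : (A : ℝ) ^ 2 + B ^ 2 + u ^ 2 = 3 * u * A * B := by exact_mod_cast hM
      linear_combination 9 * (A : ℝ) ^ 2 * hll - 9 * (A : ℝ) * B * s1 + 9 * s2
    have n2' : X' * Xb' = -9 * (u' : ℝ) ^ 2 := by
      rw [hX1', hXb']
      have s1 : la u' + lb' = 3 * u' := by rw [hl', hlb']; ring
      have s2 : (A' : ℝ) ^ 2 + B' ^ 2 + u' ^ 2 = 3 * u' * A' * B' := by exact_mod_cast hM'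
      linear_combination 9 * (A' : ℝ) ^ 2 * hll' - 9 * (A' : ℝ) * B' * s1 + 9 * s2
    have e1 : W * X' ^ 2 = W' * X ^ 2 * (p * q') := by linarith
    have e2 : Wb * Xb' ^ 2 = Wb' * Xb ^ 2 * (q * p') := by linarith
    have e3 : (W * Wb) * (X' * Xb') ^ 2 = (W' * Wb') * (X * Xb) ^ 2 := by
      calc (W * Wb) * (X' * Xb') ^ 2 = (W * X' ^ 2) * (Wb * Xb' ^ 2) := by ring
        _ = (W' * X ^ 2 * (p * q')) * (Wb' * Xb ^ 2 * (q * p')) := by rw [e1, e2]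
        _ = (W' * Wb') * (X * Xb) ^ 2 * ((p * q) * (p' * q')) := by ring
        _ = _ := by rw [hpq, hpq']; ring
    rw [n1, n1', n2, n2'] at e3
    have e4 : ((NN u i j : ℤ) : ℝ) * (u' : ℝ) ^ 4 = ((NN u' i' j' : ℤ) : ℝ) * (u : ℝ) ^ 4 := by
      linear_combination (1 / 81 : ℝ) * e3
    exact_mod_cast e4

end Pool.Agent.N919.MX2S
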